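import Mathlib
import Pool.Agent.N741.HB.Rnd

/-!
# Almost all root stacks along divisors of Fermat type have no integral points

Let `h 1, …, h m` be linear forms in `n ≤ m` variables, any `n` of them linearly independent, with
integral coefficients of absolute value at most `T ^ A`. For an integral vector `s` let `D_s` be the
divisor `F_s = ∑ s i * a i * h i ^ N = 0` in `ℙ^(n - 1)`, where the `a i` are fixed nonzero integers,
possibly of exponential size `exp (T ^ δ)`.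

For all `n ≤ m`, `A`, `0 ≤ β ≤ 1` and `ε > 0` there are `R` and `δ > 0` such that for all `T ≥ 1` and all
such `h`, `a` and all nonzero `b`, `|b| ≤ exp (T ^ δ)`, the following holds for all but
`T ^ (m - 1 + β + ε)` of the `(2 T + 1) ^ m` vectors `s` with `|s i| ≤ T`: for ALL degrees `N` and ALL orders
`r` between `R` and `T ^ δ` and all nonzero integers `s₀` with `|s₀| ≤ T ^ β` there is no primitive
integral vector `x`, `|x j| ≤ T ^ A`, such that `F_s(x)` is `s₀ * b` times an `r`-th power of a rational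
number (so `|z|` may be exponentially large).

For `b = s₀ = ±1` these `x` are the integral points of the root stack of order `r` along `D_s`. The
canonical divisors of these stacks are ample, of degree `(1 - 1 / r) N - n`. The exponent
`m - 1 + β` is the best possible one: if `h i (x) = 1` for all `i` and some `x`, and `a i = b = 1`, then all
`s` with `|∑ s i| ≤ T ^ β`, `∑ s i ≠ 0`, are exceptional.

Method: the core theorem of the project HB (determinant method with unbounded exponents as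
coefficients, in an ultraproduct) shows that the solutions `(s, x)` fall into few classes, given by
ratios of the `h i (x)`; if no partial sum vanishes then `x` is determined up to sign. For fixed `x` and
`s₀` the power `z ^ r` has few values, by the theorem on power values of polynomials, applied to the
linear polynomial `s ↦ F_s(x)`; each of them gives a hyperplane in the space of the `s`.

Parts of the proof by helpers 20, 26, 27, 54, 72, 152, 222, 368, 426, 459, 572, 603, 618, 966 (see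
Pool/Agent/N741/HB/Thm.lean and Thm2.lean).
-/

set_option autoImplicit false

namespace Pool.Agent.Results.MP_a41896_nt.FermatStacksWithoutPoints

/-- `x` is primitive -/
def Primitive {n : ℕ} (x : Fin n → ℤ) : Prop := ∀ d : ℕ, (∀ j, (d : ℤ) ∣ x j) → d = 1

/-- only `0` is a common zero of `n` of the linear forms `h i` -/
def GeneralPosition {n m : ℕ} (h : Fin m → Fin n → ℤ) : Prop :=
  ∀ S : Finset (Fin m), S.card = n → ∀ x : Fin n → ℤ, (∀ i ∈ S, ∑ j, h i j * x j = 0) → x = 0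

/-- the vectors `s`, `|s i| ≤ T`, such that for some `N`, `r` between `R` and `T ^ δ` and some nonzero
`s₀`, `|s₀| ≤ T ^ β`, there is a primitive `x`, `|x j| ≤ T ^ A`, such that
`∑ s i * a i * h i (x) ^ N` is `s₀ * b` times an `r`-th power -/
def exceptional {n m : ℕ} (A R : ℕ) (β δ : ℝ) (T : ℕ) (a : Fin m → ℤ) (b : ℤ)
    (h : Fin m → Fin n → ℤ) : Set (Fin m → ℤ) :=
  {s | (∀ i, |s i| ≤ (T : ℤ)) ∧ ∃ (N r : ℕ) (x : Fin n → ℤ) (s₀ : ℤ) (z : ℚ),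
    R ≤ N ∧ (N : ℝ) ≤ (T : ℝ) ^ δ ∧ R ≤ r ∧ (r : ℝ) ≤ (T : ℝ) ^ δ ∧ Primitive x ∧
    (∀ j, |x j| ≤ (T : ℤ) ^ A) ∧ s₀ ≠ 0 ∧ ((|s₀| : ℤ) : ℝ) ≤ (T : ℝ) ^ β ∧
    ((∑ i, s i * a i * (∑ j, h i j * x j) ^ N : ℤ) : ℚ) = (s₀ : ℚ) * b * z ^ r}

open Pool.Agent.N741.HB Pool.Agent.N741.HB.Rnd Pool.Agent.Y902.GN

/-- the coefficients of the linear polynomial -/
theorem coef_le {n : ℕ} {T N r A : ℕ} {δ δ₂ : ℝ} (hT : 1 ≤ T) (hδ : 0 < δ) (hn : 1 ≤ n)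
    (hδ₂ : δ + (δ + (δ + δ)) ≤ δ₂) (hbig : ((4 * (n + 2 * A + 4) : ℕ) : ℝ) * (1 + 1 / δ) ≤ (T : ℝ) ^ δ)
    (hN : (N : ℝ) ≤ (T : ℝ) ^ δ) (hr : (r : ℝ) ≤ (T : ℝ) ^ δ) {a b s₀ L : ℤ} (hb : b ≠ 0)
    (ha : ((|a| : ℤ) : ℝ) ≤ Real.exp ((T : ℝ) ^ δ)) (hb' : ((|b| : ℤ) : ℝ) ≤ Real.exp ((T : ℝ) ^ δ))
    (hs : |s₀| ≤ (T : ℤ)) (hL : |L| ≤ n * (T : ℤ) ^ (2 * A)) :
    ((|(s₀ * b) ^ (r - 1) * (a * L ^ N)| : ℤ) : ℝ) ≤ Real.exp ((T : ℝ) ^ δ₂) := by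
  have hT1 : (1 : ℝ) ≤ (T : ℝ) := by exact_mod_cast hT
  have hT0 : (0 : ℝ) < (T : ℝ) := by linarith
  obtain ⟨V, hV⟩ : ∃ V : ℝ, V = (T : ℝ) ^ δ := ⟨_, rfl⟩
  have hV1 : 1 ≤ V := by rw [hV]; exact Real.one_le_rpow hT1 hδ.le
  rw [← hV] at hbig hN hr ha hb'
  have hlog : Real.log T ≤ V / δ := by
    rw [hV]
    exact Real.log_le_rpow_div hT0.le hδ
  obtain ⟨ℓ, hℓ⟩ : ∃ ℓ : ℝ, ℓ = V / δ := ⟨_, rfl⟩
  rw [← hℓ] at hlog
  have hℓ0 : 0 ≤ ℓ := by rw [hℓ]; positivity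
  have hTℓ : (T : ℝ) ≤ Real.exp ℓ := by
    rw [← Real.exp_log hT0]
    exact Real.exp_le_exp.2 hlog
  have hnexp : (n : ℝ) ≤ Real.exp n := by
    have := Real.add_one_le_exp (n : ℝ)
    linarith
  have hsb : ((|s₀ * b| : ℤ) : ℝ) ≤ Real.exp (ℓ + V) := by
    rw [abs_mul, Real.exp_add]
    push_cast
    have h1 : |(s₀ : ℝ)| ≤ (T : ℝ) := by exact_mod_cast hs
    have h2 : |(b : ℝ)| ≤ Real.exp V := by exact_mod_cast hb'
    exact mul_le_mul (h1.trans hTℓ) h2 (abs_nonneg _) (Real.exp_pos _).le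
  have hLe : ((|L| : ℤ) : ℝ) ≤ Real.exp (n + (2 * A : ℕ) * ℓ) := by
    have h1 : ((|L| : ℤ) : ℝ) ≤ (n : ℝ) * (T : ℝ) ^ (2 * A) := by exact_mod_cast hL
    refine h1.trans ?_
    rw [Real.exp_add, Real.exp_nat_mul]
    exact mul_le_mul hnexp (pow_le_pow_left₀ hT0.le hTℓ _) (by positivity) (Real.exp_pos _).le
  have e1 : ((|(s₀ * b) ^ (r - 1) * (a * L ^ N)| : ℤ) : ℝ) =
      ((|s₀ * b| : ℤ) : ℝ) ^ (r - 1) * (((|a| : ℤ) : ℝ) * ((|L| : ℤ) : ℝ) ^ N) := by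
    rw [abs_mul, abs_pow, abs_mul a, abs_pow]
    push_cast
    ring
  rw [e1]
  have e2 : ((|s₀ * b| : ℤ) : ℝ) ^ (r - 1) ≤ Real.exp ((r : ℝ) * (ℓ + V)) := by
    calc ((|s₀ * b| : ℤ) : ℝ) ^ (r - 1) ≤ Real.exp (ℓ + V) ^ (r - 1) :=
          pow_le_pow_left₀ (by positivity) hsb _
      _ ≤ Real.exp (ℓ + V) ^ r := pow_le_pow_right₀ (Real.one_le_exp (by positivity)) (by omega)
      _ = _ := by rw [← Real.exp_nat_mul]
  have e3 : ((|L| : ℤ) : ℝ) ^ N ≤ Real.exp ((N : ℝ) * (n + (2 * A : ℕ) * ℓ)) := by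
    calc ((|L| : ℤ) : ℝ) ^ N ≤ Real.exp (n + (2 * A : ℕ) * ℓ) ^ N :=
          pow_le_pow_left₀ (by positivity) hLe _
      _ = _ := by rw [← Real.exp_nat_mul]
  calc ((|s₀ * b| : ℤ) : ℝ) ^ (r - 1) * (((|a| : ℤ) : ℝ) * ((|L| : ℤ) : ℝ) ^ N)
      ≤ Real.exp ((r : ℝ) * (ℓ + V)) * (Real.exp V * Real.exp ((N : ℝ) * (n + (2 * A : ℕ) * ℓ))) := by
        refine mul_le_mul e2 (mul_le_mul ha e3 (by positivity) (Real.exp_pos _).le) (by positivity)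
          (Real.exp_pos _).le
    _ = Real.exp ((r : ℝ) * (ℓ + V) + (V + (N : ℝ) * (n + (2 * A : ℕ) * ℓ))) := by
        rw [Real.exp_add, Real.exp_add]
    _ ≤ Real.exp ((T : ℝ) ^ δ₂) := by
        refine Real.exp_le_exp.2 ?_
        have hn0 : (0 : ℝ) ≤ n := Nat.cast_nonneg _
        have hA0 : (0 : ℝ) ≤ ((2 * A : ℕ) : ℝ) := Nat.cast_nonneg _
        have h1 : (r : ℝ) * (ℓ + V) ≤ V * (ℓ + V) := mul_le_mul_of_nonneg_right hr (by positivity)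
        have h2 : (N : ℝ) * (n + (2 * A : ℕ) * ℓ) ≤ V * (n + (2 * A : ℕ) * ℓ) :=
          mul_le_mul_of_nonneg_right hN (by positivity)
        have h3 : V * (ℓ + V) + (V + V * (n + (2 * A : ℕ) * ℓ)) ≤ V * (V * (V * V)) := by
          have h4 : ℓ = V * (1 / δ) := by rw [hℓ]; ring
          obtain ⟨w, hw⟩ : ∃ w : ℝ, w = 1 / δ := ⟨_, rfl⟩
          have hw0 : 0 ≤ w := by rw [hw]; positivity
          rw [← hw] at h4 hbig
          rw [h4]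
          push_cast at hbig ⊢
          have hA1 : (0 : ℝ) ≤ A := Nat.cast_nonneg _
          have h5 : V * w + V + 1 + n + 2 * A * (V * w) ≤ V * V := by
            have h6 : (w + 1 + 1 + n + 2 * A * w) ≤ V := by
              refine le_trans ?_ hbig
              nlinarith [mul_nonneg hn0 hw0, mul_nonneg hA1 hw0]
            have h7 : V * w + V + 1 + n + 2 * A * (V * w) ≤ V * (w + 1 + 1 + n + 2 * A * w) := by
              nlinarith
            exact h7.trans (mul_le_mul_of_nonneg_left h6 (by linarith))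
          have h8 : V * (V * w + V) + (V + V * (n + 2 * A * (V * w))) =
              V * (V * w + V + 1 + n + 2 * A * (V * w)) := by ring
          rw [h8]
          refine (mul_le_mul_of_nonneg_left h5 (by linarith)).trans ?_
          refine mul_le_mul_of_nonneg_left ?_ (by linarith)
          exact le_mul_of_one_le_left (by positivity) hV1
        have h4 : V * (V * (V * V)) ≤ (T : ℝ) ^ δ₂ := by
          rw [hV, ← Real.rpow_add hT0, ← Real.rpow_add hT0, ← Real.rpow_add hT0]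
          exact Real.rpow_le_rpow_of_exponent_le hT1 hδ₂
        linarith

theorem bound_aux {X K W S M m c P t q1 q2 g : ℝ}
    (hX : X ≤ m * (c * P) + M * M * (K * (c * P + (2 * S + 1) * ((W + 3) * (c * P)))))
    (hK0 : 0 ≤ K) (hK : K ≤ q1) (hW0 : 0 ≤ W) (hW : W ≤ q2) (hS0 : 0 ≤ S) (hS : S ≤ g)
    (hM0 : 0 ≤ M) (hM : M ≤ 2 * t) (h1 : 1 ≤ q1) (h2 : 1 ≤ q2) (h3 : 1 ≤ g) (hP : 0 ≤ P)
    (hc : 0 ≤ c) (hm : 0 ≤ m) (ht1 : 1 ≤ t) (ht : m * c + 52 * c ≤ t) :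
    X ≤ t * (t * t) * (q1 * q2) * (g * P) := by
  have a1 : 2 * S + 1 ≤ 3 * g := by linarith
  have a2 : W + 3 ≤ 4 * q2 := by linarith
  have hcP : 0 ≤ c * P := mul_nonneg hc hP
  have hgq : 1 ≤ g * q2 := one_le_mul_of_one_le_of_one_le h3 h2
  have a3 : (2 * S + 1) * ((W + 3) * (c * P)) ≤ 12 * (g * q2) * (c * P) := by
    calc (2 * S + 1) * ((W + 3) * (c * P)) ≤ (3 * g) * ((4 * q2) * (c * P)) :=
          mul_le_mul a1 (mul_le_mul_of_nonneg_right a2 hcP) (by positivity) (by linarith)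
      _ = 12 * (g * q2) * (c * P) := by ring
  have a4 : c * P ≤ (g * q2) * (c * P) := le_mul_of_one_le_left hcP hgq
  have a5 : c * P + (2 * S + 1) * ((W + 3) * (c * P)) ≤ 13 * (g * q2) * (c * P) := by linarith
  have a6 : K * (c * P + (2 * S + 1) * ((W + 3) * (c * P))) ≤ q1 * (13 * (g * q2) * (c * P)) :=
    mul_le_mul hK a5 (by positivity) (by linarith)
  have a7 : M * M ≤ 4 * (t * t) := by nlinarith
  have a8 : M * M * (K * (c * P + (2 * S + 1) * ((W + 3) * (c * P)))) ≤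
      4 * (t * t) * (q1 * (13 * (g * q2) * (c * P))) :=
    mul_le_mul a7 a6 (by positivity) (by positivity)
  have hQ : 1 ≤ t * t * (q1 * q2) * g := by
    have b1 : 1 ≤ t * t := one_le_mul_of_one_le_of_one_le ht1 ht1
    have b2 : 1 ≤ q1 * q2 := one_le_mul_of_one_le_of_one_le h1 h2
    exact one_le_mul_of_one_le_of_one_le (one_le_mul_of_one_le_of_one_le b1 b2) h3
  have a9 : m * (c * P) ≤ (t * t * (q1 * q2) * g) * (m * (c * P)) :=
    le_mul_of_one_le_left (mul_nonneg hm hcP) hQ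
  calc X ≤ m * (c * P) + M * M * (K * (c * P + (2 * S + 1) * ((W + 3) * (c * P)))) := hX
    _ ≤ (t * t * (q1 * q2) * g) * (m * (c * P)) +
        4 * (t * t) * (q1 * (13 * (g * q2) * (c * P))) := add_le_add a9 a8
    _ = (m * c + 52 * c) * ((t * t) * (q1 * q2) * (g * P)) := by ring
    _ ≤ t * ((t * t) * (q1 * q2) * (g * P)) := mul_le_mul_of_nonneg_right ht (by positivity)
    _ = _ := by ring

/-- few values of `z ^ r` for fixed `x` and `s₀` -/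
theorem few_powers {n m T N r A R₂ : ℕ} {δ δ₂ ε₂ : ℝ} {Y W : ℕ}
    (H : ∀ Y : ℕ, 1 ≤ Y → ∀ (D : ℕ) (F : MvPolynomial (Fin m) ℤ), 1 ≤ D → (D : ℝ) ≤ (Y : ℝ) ^ δ₂ →
      F.totalDegree ≤ D → (∀ m, ((|F.coeff m| : ℤ) : ℝ) ≤ Real.exp ((Y : ℝ) ^ δ₂)) →
      ∀ T : Finset ℤ, (∀ w ∈ T, ∃ (x : Fin m → ℤ) (s z : ℤ) (r : ℕ),
        (∀ j, |x j| ≤ (Y : ℤ)) ∧ s ≠ 0 ∧ |s| ≤ (Y : ℤ) ^ 0 ∧ 2 ≤ |z| ∧ R₂ * D ≤ r ∧ w = z ^ r ∧
        MvPolynomial.eval x F = s * w) → (T.card : ℝ) ≤ (Y : ℝ) ^ ε₂)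
    (hT : 1 ≤ T) (hTY : T ≤ Y) (hδ : 0 < δ) (hδ0 : 0 < δ₂) (hn : 1 ≤ n)
    (hδ₂ : δ + (δ + (δ + δ)) ≤ δ₂) (hbig : ((4 * (n + 2 * A + 4) : ℕ) : ℝ) * (1 + 1 / δ) ≤ (T : ℝ) ^ δ)
    (hN : (N : ℝ) ≤ (T : ℝ) ^ δ) (hr : (r : ℝ) ≤ (T : ℝ) ^ δ) (hR : R₂ ≤ r) (hW : W = ⌊(Y : ℝ) ^ ε₂⌋₊)
    {a : Fin m → ℤ} {b : ℤ} {h : Fin m → Fin n → ℤ} (hb : b ≠ 0)
    (ha : ∀ i, ((|a i| : ℤ) : ℝ) ≤ Real.exp ((T : ℝ) ^ δ))
    (hb' : ((|b| : ℤ) : ℝ) ≤ Real.exp ((T : ℝ) ^ δ)) (hh : ∀ i j, |h i j| ≤ (T : ℤ) ^ A)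
    (x : Fin n → ℤ) (s0 : ℤ) (hx : ∀ j, |x j| ≤ ((T ^ A : ℕ) : ℤ)) (hs : |s0| ≤ (T : ℤ))
    (Ws : Finset ℤ) (hWs : ∀ w ∈ Ws, ∃ s ∈ box m T, ∃ z : ℤ, 2 ≤ |z| ∧ w = z ^ r ∧
        (s0 * b) ^ (r - 1) * ∑ i, a i * (s i * lin (h i) x ^ N) = w) : Ws.card ≤ W := by
  classical
  have hY : 1 ≤ Y := hT.trans hTY
  obtain ⟨c, hc⟩ : ∃ c : Fin m → ℤ, ∀ i, c i = (s0 * b) ^ (r - 1) * (a i * lin (h i) x ^ N) :=
    ⟨_, fun _ => rfl⟩
  have hcb : ∀ i, ((|c i| : ℤ) : ℝ) ≤ Real.exp ((Y : ℝ) ^ δ₂) := by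
    intro i
    rw [hc]
    refine (coef_le hT hδ hn hδ₂ hbig hN hr hb (ha i) hb' hs ?_).trans ?_
    · unfold lin
      refine (Finset.abs_sum_le_sum_abs _ _).trans ?_
      refine (Finset.sum_le_card_nsmul _ _ ((T : ℤ) ^ (2 * A)) fun j _ => ?_).trans ?_
      · rw [abs_mul, two_mul, pow_add]
        have h1 := hx j
        push_cast at h1
        exact mul_le_mul (hh i j) h1 (abs_nonneg _) (by positivity)
      · rw [Finset.card_univ, Fintype.card_fin, nsmul_eq_mul]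
    · exact Real.exp_le_exp.2 (Real.rpow_le_rpow (by positivity) (by exact_mod_cast hTY) hδ0.le)
  rw [hW]
  refine Nat.le_floor (H Y hY 1 (∑ i, MvPolynomial.C (c i) * MvPolynomial.X i) le_rfl ?_ ?_ ?_ _
    fun w hw => ?_)
  · rw [Nat.cast_one]
    exact Real.one_le_rpow (by exact_mod_cast hY) hδ0.le
  · refine MvPolynomial.totalDegree_finsetSum_le fun i _ => ?_
    refine (MvPolynomial.totalDegree_mul _ _).trans ?_
    rw [MvPolynomial.totalDegree_C, zero_add, MvPolynomial.totalDegree_X]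
  · intro μ
    rw [MvPolynomial.coeff_sum]
    have h1 : ∀ i, MvPolynomial.coeff μ (MvPolynomial.C (c i) * MvPolynomial.X i) =
        if Finsupp.single i 1 = μ then c i else 0 := by
      intro i
      rw [MvPolynomial.coeff_C_mul, MvPolynomial.coeff_X]
      split_ifs <;> simp
    have h2 : |∑ i, MvPolynomial.coeff μ (MvPolynomial.C (c i) * MvPolynomial.X i)| = 0 ∨
        ∃ i, |∑ i, MvPolynomial.coeff μ (MvPolynomial.C (c i) * MvPolynomial.X i)| = |c i| := by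
      by_cases h3 : ∃ i : Fin m, Finsupp.single i 1 = μ
      · obtain ⟨i, hi⟩ := h3
        right
        refine ⟨i, ?_⟩
        rw [Finset.sum_eq_single i]
        · rw [h1, if_pos hi]
        · intro j _ hj
          rw [h1, if_neg]
          intro h4
          rw [← hi] at h4
          exact hj (Finsupp.single_left_injective (by norm_num) h4)
        · intro h4
          exact absurd (Finset.mem_univ i) h4
      · left
        rw [Finset.sum_eq_zero, abs_zero]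
        intro i _
        rw [h1, if_neg fun h4 => h3 ⟨i, h4⟩]
    rcases h2 with h2 | ⟨i, h2⟩
    · rw [h2, Int.cast_zero]
      positivity
    · rw [h2]
      exact hcb i
  · obtain ⟨s, hs1, z, hz, hwz, heq⟩ := hWs w hw
    refine ⟨s, 1, z, r, fun j => (mem_box.1 hs1 j).trans (by exact_mod_cast hTY), one_ne_zero,
      by rw [abs_one, pow_zero], hz, by rw [mul_one]; exact hR, hwz, ?_⟩
    rw [one_mul, ← heq, map_sum, Finset.mul_sum]
    refine Finset.sum_congr rfl fun i _ => ?_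
    rw [map_mul, MvPolynomial.eval_C, MvPolynomial.eval_X, hc]
    ring

/-- **Almost all root stacks along divisors of Fermat type have no integral points.** -/
theorem result (n m A : ℕ) (hn : 1 ≤ n) (hnm : n ≤ m) (β ε : ℝ) (hβ : 0 ≤ β) (hβ1 : β ≤ 1)
    (hε : 0 < ε) : ∃ (R : ℕ) (δ : ℝ), 0 < δ ∧ ∀ T : ℕ, 1 ≤ T →
      ∀ (a : Fin m → ℤ) (b : ℤ) (h : Fin m → Fin n → ℤ),
      (∀ i, a i ≠ 0 ∧ ((|a i| : ℤ) : ℝ) ≤ Real.exp ((T : ℝ) ^ δ)) →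
      b ≠ 0 → ((|b| : ℤ) : ℝ) ≤ Real.exp ((T : ℝ) ^ δ) →
      (∀ i j, |h i j| ≤ (T : ℤ) ^ A) → GeneralPosition h →
      (exceptional A R β δ T a b h).Finite ∧
        ((exceptional A R β δ T a b h).ncard : ℝ) ≤ (T : ℝ) ^ ((m : ℝ) - 1 + β + ε) := by
  classical
  have hm1 : 1 ≤ m := hn.trans hnm
  have hA1 : (0 : ℝ) < (A : ℝ) + 1 := by positivity
  obtain ⟨η, hη⟩ : ∃ η : ℝ, η = ε / (3 * (A + 1)) := ⟨_, rfl⟩
  have hη0 : 0 < η := by rw [hη]; positivity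
  obtain ⟨R₁, δ₁, hδ₁, H₁⟩ := covkZ core n m 1 1 η hη0
  obtain ⟨R₂, δ₂, hδ₂, H₂⟩ := pv m 0 η hη0
  obtain ⟨δ, hδd⟩ : ∃ δ, δ = min (min δ₁ (δ₂ / 4)) (ε / 9) := ⟨_, rfl⟩
  have hδ : 0 < δ := by
    rw [hδd]
    exact lt_min (lt_min hδ₁ (by positivity)) (by positivity)
  have hδ1 : δ ≤ δ₁ := by rw [hδd]; exact (min_le_left _ _).trans (min_le_left _ _)
  have hδ2 : δ + (δ + (δ + δ)) ≤ δ₂ := by
    have : δ ≤ δ₂ / 4 := by rw [hδd]; exact (min_le_left _ _).trans (min_le_right _ _)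
    linarith
  have hδε : δ ≤ ε / 9 := by rw [hδd]; exact min_le_right _ _
  obtain ⟨R₃, hR₃⟩ := exists_nat_ge (((4 * (n + 2 * A + 4) : ℕ) : ℝ) * (1 + 1 / δ))
  obtain ⟨C0, hC0⟩ : ∃ C0 : ℕ, C0 = m * 3 ^ (m - 1) + 52 * 3 ^ (m - 1) := ⟨_, rfl⟩
  refine ⟨max (max R₁ R₂) (max R₃ C0), δ, hδ, fun T hT a b h ha hb hb' hh hgp => ?_⟩
  obtain ⟨R, hR⟩ : ∃ R, R = max (max R₁ R₂) (max R₃ C0) := ⟨_, rfl⟩
  rw [← hR]
  have hRR1 : R₁ ≤ R := by rw [hR]; exact (le_max_left _ _).trans (le_max_left _ _)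
  have hRR2 : R₂ ≤ R := by rw [hR]; exact (le_max_right _ _).trans (le_max_left _ _)
  have hRR3 : R₃ ≤ R := by rw [hR]; exact (le_max_left _ _).trans (le_max_right _ _)
  have hRC0 : C0 ≤ R := by rw [hR]; exact (le_max_right _ _).trans (le_max_right _ _)
  have hC01 : 1 ≤ C0 := by
    rw [hC0]
    have : 1 ≤ 3 ^ (m - 1) := Nat.one_le_pow _ _ (by norm_num)
    omega
  have hT1 : (1 : ℝ) ≤ (T : ℝ) := by exact_mod_cast hT
  have hT0 : (0 : ℝ) < (T : ℝ) := by linarith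
  obtain ⟨Ex, hEx⟩ : ∃ Ex, Ex = exceptional A R β δ T a b h := ⟨_, rfl⟩
  rw [← hEx]
  have hsub : Ex ⊆ (box m T : Set (Fin m → ℤ)) := by
    intro s hs
    rw [hEx] at hs
    exact mem_box.2 hs.1
  have hfin : Ex.Finite := (box m T).finite_toSet.subset hsub
  refine ⟨hfin, ?_⟩
  obtain ⟨B, hB⟩ := hfin.exists_finset_coe
  rw [← hB, Set.ncard_coe_finset]
  have hBE : ∀ s ∈ B, s ∈ exceptional A R β δ T a b h := by
    intro s hs
    rw [← hEx, ← hB]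
    exact hs
  rcases Finset.eq_empty_or_nonempty B with hB0 | ⟨t, ht⟩
  · rw [hB0, Finset.card_empty, Nat.cast_zero]
    positivity
  have hRT : (R : ℝ) ≤ (T : ℝ) ^ δ := by
    obtain ⟨-, N, r, x, s₀, z, g1, g2, -⟩ := hBE t ht
    calc (R : ℝ) ≤ (N : ℝ) := by exact_mod_cast g1
      _ ≤ _ := g2
  have hbig : ((4 * (n + 2 * A + 4) : ℕ) : ℝ) * (1 + 1 / δ) ≤ (T : ℝ) ^ δ :=
    hR₃.trans (le_trans (by exact_mod_cast hRR3) hRT)
  obtain ⟨Y, hY⟩ : ∃ Y : ℕ, Y = T ^ (A + 1) := ⟨_, rfl⟩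
  have hTY : T ≤ Y := by rw [hY]; exact Nat.le_self_pow (by omega) _
  have hXY : T ^ A ≤ Y := by rw [hY]; exact Nat.pow_le_pow_right hT (by omega)
  have hY1 : 1 ≤ Y := hT.trans hTY
  have hY1R : (1 : ℝ) ≤ (Y : ℝ) := by exact_mod_cast hY1
  have hTYR : (T : ℝ) ≤ (Y : ℝ) := by exact_mod_cast hTY
  have hTYδ : (T : ℝ) ^ δ ≤ (Y : ℝ) ^ δ₁ :=
    (Real.rpow_le_rpow_of_exponent_le hT1 hδ1).trans (Real.rpow_le_rpow hT0.le hTYR hδ₁.le)
  obtain ⟨K, hK⟩ : ∃ K : ℕ, K = ⌊(Y : ℝ) ^ η⌋₊ := ⟨_, rfl⟩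
  obtain ⟨S0, hS0⟩ : ∃ S0 : ℕ, S0 = ⌊(T : ℝ) ^ β⌋₊ := ⟨_, rfl⟩
  have hS0T : S0 ≤ T := by
    rw [hS0]
    refine Nat.floor_le_of_le ?_
    calc (T : ℝ) ^ β ≤ (T : ℝ) ^ (1 : ℝ) := Real.rpow_le_rpow_of_exponent_le hT1 hβ1
      _ = T := Real.rpow_one _
  obtain ⟨Bd, hBd⟩ : ∃ Bd : ℕ, Bd = K * ((2 * T + 1) ^ (m - 1) +
      (2 * S0 + 1) * ((K + 3) * (2 * T + 1) ^ (m - 1))) := ⟨_, rfl⟩
  obtain ⟨M, hM⟩ : ∃ M : ℕ, M = ⌊(T : ℝ) ^ δ⌋₊ + 1 := ⟨_, rfl⟩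
  -- the sets for fixed exponents
  obtain ⟨G, hG⟩ : ∃ G : ℕ × ℕ → Finset (Fin m → ℤ), ∀ p s, s ∈ G p ↔ s ∈ B ∧ (∀ i, s i ≠ 0) ∧
      R ≤ p.1 ∧ (p.1 : ℝ) ≤ (T : ℝ) ^ δ ∧ R ≤ p.2 ∧ (p.2 : ℝ) ≤ (T : ℝ) ^ δ ∧
      ∃ (x : Fin n → ℤ) (s₀ : ℤ) (z : ℚ), Primitive x ∧ (∀ j, |x j| ≤ (T : ℤ) ^ A) ∧ s₀ ≠ 0 ∧
        ((|s₀| : ℤ) : ℝ) ≤ (T : ℝ) ^ β ∧
        ((∑ i, s i * a i * (∑ j, h i j * x j) ^ p.1 : ℤ) : ℚ) = (s₀ : ℚ) * b * z ^ p.2 := by
    refine ⟨fun p => B.filter fun s => (∀ i, s i ≠ 0) ∧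
      R ≤ p.1 ∧ (p.1 : ℝ) ≤ (T : ℝ) ^ δ ∧ R ≤ p.2 ∧ (p.2 : ℝ) ≤ (T : ℝ) ^ δ ∧
      ∃ (x : Fin n → ℤ) (s₀ : ℤ) (z : ℚ), Primitive x ∧ (∀ j, |x j| ≤ (T : ℤ) ^ A) ∧ s₀ ≠ 0 ∧
        ((|s₀| : ℤ) : ℝ) ≤ (T : ℝ) ^ β ∧
        ((∑ i, s i * a i * (∑ j, h i j * x j) ^ p.1 : ℤ) : ℚ) = (s₀ : ℚ) * b * z ^ p.2,
      fun p s => Finset.mem_filter⟩
  have hGc : ∀ p, (G p).card ≤ Bd := by
    intro p
    rcases Finset.eq_empty_or_nonempty (G p) with h0 | ⟨t', ht'⟩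
    · rw [h0, Finset.card_empty]
      exact Nat.zero_le _
    obtain ⟨-, -, g1, g2, g3, g4, -⟩ := (hG p t').1 ht'
    have hR1 : 1 ≤ R := hC01.trans hRC0
    rw [hBd]
    refine cnt (E := 1) (Y := Y) (X := T ^ A) hnm a (fun i => (ha i).1) b hb h ?_ p.1 p.2
      (hR1.trans g1) (hR1.trans g3) hXY ?_ ?_ ?_ ?_ (G p) ?_
    · intro S hS x hx
      exact hgp S hS x hx
    · rw [pow_one]
      exact_mod_cast hTY
    · rw [pow_one]
      exact_mod_cast hS0T.trans hTY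
    · intro Ks hKs
      rw [hK]
      refine Nat.le_floor (H₁ Y hY1 (fun _ => p.1) (fun _ => p.2)
        (fun _ => ⟨hRR1.trans g1, g2.trans hTYδ⟩) (fun _ => ⟨hRR1.trans g3, g4.trans hTYδ⟩)
        (fun _ => a) (fun _ => b) (fun _ i => (ha i).2.trans (Real.exp_le_exp.2 hTYδ))
        (fun _ => hb'.trans (Real.exp_le_exp.2 hTYδ)) (fun _ => h) (fun _ i j => ?_) Ks hKs)
      rw [pow_one]
      exact (hh i j).trans (by exact_mod_cast hXY)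
    · intro x s0 hx hs0 hs0' Ws hWs
      exact few_powers H₂ hT hTY hδ hδ₂ hn hδ2 hbig g2 g4 (hRR2.trans g3) hK hb
        (fun i => (ha i).2) hb' hh x s0 hx (hs0'.trans (by exact_mod_cast hS0T)) Ws hWs
    · intro s hs
      obtain ⟨k1, k2, -, -, -, -, x, s₀, z, k3, k4, k5, k6, k7⟩ := (hG p s).1 hs
      refine ⟨mem_box.2 (hBE s k1).1, k2, x, s₀, z, k3, fun j => ?_, k5, ?_, ?_⟩
      · push_cast
        exact k4 j
      · rw [hS0]
        have h1 : ((s₀.natAbs : ℕ) : ℝ) ≤ (T : ℝ) ^ β := by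
          rw [Nat.cast_natAbs]
          exact k6
        have h2 := Nat.le_floor h1
        rw [Int.abs_eq_natAbs]
        exact_mod_cast h2
      · unfold spF lin
        rw [mul_comm (b : ℚ) (s₀ : ℚ), ← k7]
        push_cast
        refine Finset.sum_congr rfl fun i _ => ?_
        ring
  -- the union
  have hcov : B ⊆ (Finset.univ.biUnion fun i => B.filter fun s => s i = 0) ∪
      (Finset.range M ×ˢ Finset.range M).biUnion G := by
    intro s hs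
    rw [Finset.mem_union]
    by_cases h0 : ∃ i, s i = 0
    · obtain ⟨i, hi⟩ := h0
      exact Or.inl (Finset.mem_biUnion.2 ⟨i, Finset.mem_univ _, Finset.mem_filter.2 ⟨hs, hi⟩⟩)
    · push Not at h0
      right
      obtain ⟨k1, N, r, x, s₀, z, k2, k3, k4, k5, k6⟩ := hBE s hs
      refine Finset.mem_biUnion.2 ⟨(N, r), Finset.mem_product.2 ⟨?_, ?_⟩, (hG _ _).2
        ⟨hs, h0, k2, k3, k4, k5, x, s₀, z, k6⟩⟩
      · rw [Finset.mem_range, hM]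
        exact Nat.lt_succ_of_le (Nat.le_floor k3)
      · rw [Finset.mem_range, hM]
        exact Nat.lt_succ_of_le (Nat.le_floor k5)
  have hcard : B.card ≤ m * (2 * T + 1) ^ (m - 1) + M * M * Bd := by
    refine (Finset.card_le_card hcov).trans ((Finset.card_union_le _ _).trans (Nat.add_le_add ?_ ?_))
    · refine (Finset.card_biUnion_le_card_mul _ _ ((2 * T + 1) ^ (m - 1)) fun i _ => ?_).trans ?_
      · refine hyper (fun j => if j = i then 1 else 0) i (by rw [if_pos rfl]; exact one_ne_zero) 0 _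
          fun s hs => ?_
        obtain ⟨k1, k2⟩ := Finset.mem_filter.1 hs
        refine ⟨mem_box.2 (hBE s k1).1, ?_⟩
        simp [k2]
      · rw [Finset.card_univ, Fintype.card_fin]
    · refine (Finset.card_biUnion_le_card_mul _ _ Bd fun p _ => hGc p).trans ?_
      rw [Finset.card_product, Finset.card_range]
  -- the numbers
  have h3T : ((2 * T + 1 : ℕ) : ℝ) ^ (m - 1) ≤ 3 ^ (m - 1) * (T : ℝ) ^ (m - 1) := by
    rw [← mul_pow]
    refine pow_le_pow_left₀ (by positivity) ?_ _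
    push_cast
    linarith
  have hcR : (B.card : ℝ) ≤ (m : ℝ) * (3 ^ (m - 1) * (T : ℝ) ^ (m - 1)) + (M : ℝ) * M *
      ((K : ℝ) * (3 ^ (m - 1) * (T : ℝ) ^ (m - 1) + (2 * (S0 : ℝ) + 1) *
        (((K : ℝ) + 3) * (3 ^ (m - 1) * (T : ℝ) ^ (m - 1))))) := by
    have h1 : (B.card : ℝ) ≤ ((m * (2 * T + 1) ^ (m - 1) + M * M * Bd : ℕ) : ℝ) := by
      exact_mod_cast hcard
    refine h1.trans ?_
    rw [hBd]
    push_cast
    push_cast at h3T
    gcongr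
  have hQ1 : (1 : ℝ) ≤ (Y : ℝ) ^ η := Real.one_le_rpow hY1R hη0.le
  have hg1 : (1 : ℝ) ≤ (T : ℝ) ^ β := Real.one_le_rpow hT1 hβ
  have ht1 : (1 : ℝ) ≤ (T : ℝ) ^ δ := Real.one_le_rpow hT1 hδ.le
  have hMt : (M : ℝ) ≤ 2 * (T : ℝ) ^ δ := by
    have h2 := Nat.floor_le (by positivity : (0 : ℝ) ≤ (T : ℝ) ^ δ)
    rw [hM]
    push_cast
    linarith
  have hC : (m : ℝ) * 3 ^ (m - 1) + 52 * 3 ^ (m - 1) ≤ (T : ℝ) ^ δ := by
    refine le_trans ?_ hRT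
    have h1 : (C0 : ℝ) ≤ R := by exact_mod_cast hRC0
    rw [hC0] at h1
    push_cast at h1
    exact h1
  have hKf : (K : ℝ) ≤ (Y : ℝ) ^ η := by
    rw [hK]
    exact Nat.floor_le (by positivity)
  have hSf : (S0 : ℝ) ≤ (T : ℝ) ^ β := by
    rw [hS0]
    exact Nat.floor_le (by positivity)
  have hfinal := bound_aux hcR (Nat.cast_nonneg _) hKf (Nat.cast_nonneg _) hKf (Nat.cast_nonneg _)
    hSf (Nat.cast_nonneg _) hMt hQ1 hQ1 hg1 (by positivity) (by positivity) (Nat.cast_nonneg _)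
    ht1 hC
  refine hfinal.trans ?_
  have hYη : (Y : ℝ) ^ η = (T : ℝ) ^ (ε / 3) := by
    rw [hY]
    push_cast
    rw [← Real.rpow_natCast, ← Real.rpow_mul hT0.le]
    congr 1
    rw [hη]
    push_cast
    field_simp
  have hPm : (T : ℝ) ^ (m - 1) = (T : ℝ) ^ ((m : ℝ) - 1) := by
    rw [← Real.rpow_natCast]
    congr 1
    rw [Nat.cast_sub hm1, Nat.cast_one]
  rw [hYη, hPm, ← Real.rpow_add hT0, ← Real.rpow_add hT0, ← Real.rpow_add hT0,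
    ← Real.rpow_add hT0, ← Real.rpow_add hT0, ← Real.rpow_add hT0]
  refine Real.rpow_le_rpow_of_exponent_le hT1 ?_
  linarith

end Pool.Agent.Results.MP_a41896_nt.FermatStacksWithoutPoints
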