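import Pool.Agent.N733.TG.K
import Pool.Agent.Results.MP_a41896_nt.StackyWindows

/-!
# Vojta's conjecture for root stacks of projective spaces at all heights near the values of multiplicative functions

Let `a_0, …, a_{r-1}` be linear forms in `n + 1` variables over a number field `K`, any `n + 1` of them linearly
independent, and let `f` be a positive multiplicative function of at most polynomial growth such that `f p ≤ M p` for the
large primes `p`, with different values at different large primes; for example Euler's function or the sum of the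
divisors. Let `α > 0`, `d ≥ 1`, `κ ≥ 0` and `d exponent(n, r, κ) / (n + 1) + θ < 1`. For all `m ≤ N` but `N / (log N)^U`,
for ALL points `x ∈ ℙ^n(K)` off the hyperplanes with `|H_K(x) ^ (n + 1) - α f(m) ^ d| ≤ f(m) ^ θ`, ALL number fields
`L ⊇ K`, ALL orders `e_i` such that `x` comes from an integral point over `L` of the root stack of order `e_i` along
`H_i`, and ALL sets `J` of indices the inequality
`(κ - ∑_{i ∉ J} 1 / e_i) h(x) ≤ N^{(1)}(𝒟_J, x) + d(L) - c` holds. More generally `G (f m)` takes the place of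
`α f(m) ^ d`, where `G` is any function with steps bounded below by a positive constant and growth at most `v ^ d`.

The values of `f` are in general taken with very large multiplicities, so this does not follow from the size of the
exceptional set, and here the inequality holds near the values for every `α`, in contrast to the starting theorem
`StackyWindows` (almost all `α`, and sequences of exponent of convergence less than one).

The tool is helper733's theorem on the values of multiplicative functions (`Pool.Agent.N733.TG`); the number of the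
exceptional points is bounded by the starting theorem `StackyProjectiveSpaces`.
-/

set_option autoImplicit false

namespace Pool.Agent.Results.MP_a41896_nt.MultiplicativeValues

open NumberField IsDedekindDomain LinearAlgebra.Projectivization
open Pool.Agent.N733.TG (LM Expanding lm_totient lm_sigma keep_windows expanding_pow)
open StackyProjectiveSpaces (lin height truncated Integral logDisc exponent exceptional)

/-- The inequality `(κ - ∑_{i ∉ J} 1 / e_i) h(x) ≤ N^{(1)}(𝒟_J, x) + d(L) - c` holds for all number fields `L` which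
contain `K`, all orders `e_i ≥ 1` such that `x` comes from an integral point over the `S`-integers of `L` of the root stack
of order `e_i` along `H_i`, and all sets `J` of indices. -/
def Vojta {K : Type} [Field K] [NumberField K] {n r : ℕ} (S : Finset (HeightOneSpectrum (𝓞 K)))
    (a : Fin r → Fin (n + 1) → K) (κ c : ℝ) (x : ℙ K (Fin (n + 1) → K)) : Prop :=
  ∀ (L : Type) [Field L] [NumberField L] [Algebra K L] (e : Fin r → ℕ) (J : Finset (Fin r)),
    (∀ i, 1 ≤ e i) → Integral L S a e x →
      (κ - ∑ i ∈ Jᶜ, 1 / (e i : ℝ)) * height x ≤ truncated L S a J x + logDisc L - c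

/-- **Theorem.** Let `K` be a number field, `n ≥ 1`, `r ≥ n + 1`, `a_0, …, a_{r-1}` linear forms in `n + 1` variables
over `K`, any `n + 1` of them linearly independent, `S` a finite set of primes, `κ ≥ 0`. (The exponent `exponent(n, r, κ)`
is smaller than `n + 1` for `κ < r`.) Let `f` be multiplicative and positive, of at most polynomial growth, with
`f p ≤ M p` at the large primes, and injective there. Let `G` have steps `≥ a > 0` and growth at most `v ^ d`. Let `θ ≥ 0`
and `d exponent(n, r, κ) / (n + 1) + θ < 1`. For every `c` and `U` and all large `N`, for all `m ≤ N` but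
`N / (log N)^U`, ALL points `x ∈ ℙ^n(K)` off the hyperplanes with `|H_K(x) ^ (n + 1) - G (f m)| ≤ f(m) ^ θ` satisfy the
inequality, for all `L`, all `e` and all `J`. Euler's function and the sum of the divisors are examples of such functions
`f`, and `α v ^ d` with `α > 0`, `d ≥ 1` is an example of `G`. -/
theorem result :
    (∀ (K : Type) [Field K] [NumberField K] (n r : ℕ), 1 ≤ n → n + 1 ≤ r → ∀ a : Fin r → Fin (n + 1) → K,
      (∀ I : Finset (Fin r), I.card = n + 1 → LinearIndependent K (fun i : I => a i)) →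
      ∀ (S : Finset (HeightOneSpectrum (𝓞 K))) (κ : ℝ), 0 ≤ κ →
      (κ < r → exponent n r κ < n + 1) ∧
      ∀ f : ℕ → ℕ, LM f → ∀ (G : ℕ → ℝ) (d : ℝ), Expanding G d → ∀ θ : ℝ, 0 ≤ θ →
        d * (exponent n r κ / (n + 1)) + θ < 1 → ∀ (c : ℝ) (U : ℕ), ∃ N₀ : ℕ, ∀ N : ℕ, N₀ ≤ N →
        ({m : ℕ | 1 ≤ m ∧ m ≤ N ∧ ¬ ∀ x : ℙ K (Fin (n + 1) → K), (∀ i, lin (a i) x.rep ≠ 0) →
          |x.mulHeight ^ (n + 1) - G (f m)| ≤ (f m : ℝ) ^ θ → Vojta S a κ c x}.ncard : ℝ) ≤ N / Real.log N ^ U) ∧
    (LM Nat.totient ∧ LM (fun m => ∑ d ∈ m.divisors, d)) ∧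
    ∀ α d : ℝ, 0 < α → 1 ≤ d → Expanding (fun v => α * (v : ℝ) ^ d) d := by
  refine ⟨fun K _ _ n r hn hr a ha S κ hκ => ⟨fun h => StackyWindows.expo_lt hn hr h,
    fun f hf G d hG θ hθ h1 c U => ?_⟩, ⟨lm_totient, lm_sigma⟩, fun α d hα hd => expanding_pow hα hd⟩
  have hs : 0 ≤ exponent n r κ / (n + 1) := div_nonneg (StackyWindows.expo_nonneg hn hr hκ) (by positivity)
  obtain ⟨N₀, hN₀⟩ := keep_windows (⋃ B : ℝ, exceptional S a κ (-c) B) (fun x => x.mulHeight ^ (n + 1)) hf hG hs hθ h1
    (fun ε hε => StackyWindows.count K hn hr a ha S κ (-c) ε hκ hε) U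
  refine ⟨N₀, fun N hN => le_trans ?_ (hN₀ N hN)⟩
  have hsub : {m : ℕ | 1 ≤ m ∧ m ≤ N ∧ ¬ ∀ x : ℙ K (Fin (n + 1) → K), (∀ i, lin (a i) x.rep ≠ 0) →
      |x.mulHeight ^ (n + 1) - G (f m)| ≤ (f m : ℝ) ^ θ → Vojta S a κ c x} ⊆
      {m : ℕ | 1 ≤ m ∧ m ≤ N ∧ ∃ t ∈ (⋃ B : ℝ, exceptional S a κ (-c) B),
        |t.mulHeight ^ (n + 1) - G (f m)| ≤ (f m : ℝ) ^ θ} := by
    rintro m ⟨h2, h3, h4⟩
    refine ⟨h2, h3, ?_⟩
    simp only [not_forall] at h4
    obtain ⟨x, hx, hw, hV⟩ := h4
    unfold Vojta at hV
    simp only [not_forall] at hV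
    obtain ⟨L, i1, i2, i3, e, J, he, hint, hneg⟩ := hV
    refine ⟨x, Set.mem_iUnion.2 ⟨Real.exp (height x), hx, le_refl _, L, i1, i2, i3, e, J, he, hint, ?_⟩, hw⟩
    rw [not_le] at hneg
    linarith
  have hfin : {m : ℕ | 1 ≤ m ∧ m ≤ N ∧ ∃ t ∈ (⋃ B : ℝ, exceptional S a κ (-c) B),
      |t.mulHeight ^ (n + 1) - G (f m)| ≤ (f m : ℝ) ^ θ}.Finite :=
    (Set.finite_Icc 1 N).subset fun m hm => ⟨hm.1, hm.2.1⟩
  exact_mod_cast Set.ncard_le_ncard hsub hfin

end Pool.Agent.Results.MP_a41896_nt.MultiplicativeValues
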