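import Pool.Agent.N757.SG.Curve

/-!
# One stacky line decides all stacky curves

Let `K` be a number field and `S` a finite set of primes.

**Stacky lines.** Let `F_1, …, F_m` be polynomials over `K` whose product is squarefree, for instance
different monic irreducible polynomials (closed points of the affine line), and let `e_1, …, e_m, r ≥ 0`. We
consider the projective line over the `S`-integers with stacky structure of order `e_i` along `F_i = 0` and
of order `r` at `∞` (a root stack; a smooth proper Deligne-Mumford stack if `S` is large), where order `0`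
means: not a stacky point but a component of the divisor `𝒟`. So `K_𝒳(𝒟)` has degree
`-1 - 1/r + ∑ deg F_i (1 - 1/e_i)`, with `1/0 = 0`. For large `S` these are all the stacky curves over `K`
with coarse space the projective line and all their divisors `𝒟` (for a component of `𝒟` which is a stacky
point the inequality is the same, for fewer points). The integral points of `𝒳` away from the special points
are the `t ∈ K` such that for every prime `v` outside `S` the intersection number of `t` with `F_i = 0` at
`v`, the valuation of `F_i(t)` if it is positive, is divisible by `e_i` if `e_i ≠ 0`, and the one with `∞`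
by `r` if `r ≠ 0`.

**Stacky curves of any genus.** As in the starting file `StackyCurves` a smooth projective curve `X` with a
finite map `t` of degree `N` to the projective line is given by the ring `A` of the functions with poles only
over `∞`: a Dedekind domain, finite over `ℚ[t]`. (A curve over `K` is seen as a curve over `ℚ`, that is, `A`
contains `K`, and `N` is the degree over `ℚ(t)`; the points which we consider, the homomorphisms `A → K`,
include the points over `K`.) Let `Q_1, …, Q_k` be divisors, given by the ideals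
`I_l = (t - a_{j(l)}, z_{l 1}, …)` of `A`, which cover the fibres of `t` over three rational numbers `a_0`,
`a_1`, `a_2`, and let `e_1, …, e_k ≥ 0` be orders (`1` if `Q_l` is not stacky, `0` if it is in `𝒟`). If `t` is
unramified outside of the three fibres then the degree of `K_𝒳(𝒟)`, divided by `N`, is
`1 - ∑ dim (A / I_l) / (e_l N)`, and so `h_{K_𝒳(𝒟)}` is this number times `h(t)`, up to `δ h`. By Belyi's
theorem there is such a `t` for every curve over `K`, and it can be chosen such that all the stacky points and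
the components of `𝒟` are in these fibres; so for large `S` we have all stacky curves over `K`. (This use of
Belyi's theorem is not formalized; the theorem below holds for all maps `t`.)

**Theorem.** For the stacky lines with points of orders `P` at `0` and `Q` at `1` and with `𝒟 = ∞`, `(P, Q)`
in an explicit set (`(k, 2)` for `k ≥ 3`, `(3, 3)`, `(4, 4)`, `(n, 0)` for `n ≥ 2`, and the pairs obtained
from them by closure rules), the inequality of Q1 for this one stack is equivalent to the abc conjecture over
`K`, to the inequality of Q1 for all stacky curves over `K` with coarse space the projective line, and to the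
inequality of Q1 for all stacky curves over `K`, of any genus, all `𝒟` and all `S`. It is enough to know the
inequality for the integral points which are close to the cusp `∞` at all infinite places and at a given
finite set of primes.

The proof uses maps of the projective line to itself, defined over `ℚ`, which are ramified only over
the cusps and over the stacky points, with indices divisible by their orders. The primes of bad
reduction of the maps are no problem, because the triples of the abc conjecture may be replaced by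
triples close to the cusp at these primes (Belyi maps preserving the cusps), and close to the cusp
there is no condition of integrality at the stacky points. The other direction, from the abc conjecture
to all stacky curves, is the argument of Elkies: for the lines with Belyi's theorem (formalized by
helper746), for the curves with the heights of the starting library (`Pool.Agent.W223.AC.keyG`).
-/

set_option autoImplicit false

namespace Pool.Agent.Results.MP_a41896_nt.OneStackyLine

open NumberField IsDedekindDomain Polynomial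

variable {K : Type} [Field K] [NumberField K]

/-- the height of the point `P` with coordinates `x`, normalised by the degree of `K` -/
noncomputable def height3 (x : Fin 3 → K) : ℝ :=
  (∑ w : InfinitePlace K, (w.mult : ℝ) * Real.log (max (w (x 0)) (max (w (x 1)) (w (x 2)))) +
    ∑ᶠ v : HeightOneSpectrum (𝓞 K), Real.log
      (max (FinitePlace.mk v (x 0)) (max (FinitePlace.mk v (x 1)) (FinitePlace.mk v (x 2))))) /
    (Module.finrank ℚ K : ℝ)

/-- the radical of the point with coordinates `x`: the sum of `log N(v) / [K : ℚ]` over the primes `v`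
at which the valuations of the coordinates are not all equal -/
noncomputable def rad3 (x : Fin 3 → K) : ℝ :=
  (∑ᶠ (v : HeightOneSpectrum (𝓞 K)) (_ : ¬ (FinitePlace.mk v (x 0) = FinitePlace.mk v (x 1) ∧
        FinitePlace.mk v (x 1) = FinitePlace.mk v (x 2))),
    Real.log (Ideal.absNorm v.asIdeal : ℝ)) / (Module.finrank ℚ K : ℝ)

/-- the abc conjecture over `K` -/
def Abc (K : Type) [Field K] [NumberField K] : Prop :=
  ∀ ε : ℝ, 0 < ε → ∃ C : ℝ, ∀ x : Fin 3 → K, x 0 + x 1 + x 2 = 0 → x 0 * x 1 * x 2 ≠ 0 →
    height3 x < (1 + ε) * rad3 x + C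

/-- the height `h(t)` relative to `K` of the point `t` of the projective line (the degree of `K` times
the absolute height) -/
noncomputable def height (t : K) : ℝ :=
  ∑ w : InfinitePlace K, (w.mult : ℝ) * Real.log (max 1 (w t)) +
    ∑ᶠ v : HeightOneSpectrum (𝓞 K), Real.log (max 1 (FinitePlace.mk v t))

/-- `t` is an integral point, over the `S`-integers, of the line with stacky structure of order `e i` along
`F i = 0` and of order `r` at `∞`: at every prime `v` outside `S`, the valuation of `F i (t)`, if it is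
positive, is divisible by `e i`, and that of `t`, if it is negative, by `r` (no condition for the orders
which are `0`) -/
def IsIntegralPoint {m : ℕ} (F : Fin m → K[X]) (e : Fin m → ℕ) (r : ℕ)
    (S : Set (HeightOneSpectrum (𝓞 K))) (t : K) : Prop :=
  ∀ v : HeightOneSpectrum (𝓞 K), v ∉ S →
    (∀ i, e i ≠ 0 → v.valuation K ((F i).eval t) < 1 →
      ∃ g : WithZero (Multiplicative ℤ), v.valuation K ((F i).eval t) = g ^ e i) ∧
    (r ≠ 0 → 1 < v.valuation K t → ∃ g : WithZero (Multiplicative ℤ), v.valuation K t = g ^ r)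

/-- the truncated counting function `N^{(1)}(𝒟, t)` of the divisor `𝒟` consisting of the zeros of the
`F i` with `e i = 0` and of `∞` if `r = 0`: the sum of `log N(v)` over the primes `v` outside `S` at which
`t` meets `𝒟` -/
noncomputable def truncated {m : ℕ} (F : Fin m → K[X]) (e : Fin m → ℕ) (r : ℕ)
    (S : Set (HeightOneSpectrum (𝓞 K))) (t : K) : ℝ :=
  ∑ᶠ (v : HeightOneSpectrum (𝓞 K)) (_ : v ∉ S ∧ ((r = 0 ∧ 1 < v.valuation K t) ∨
    ∃ i, e i = 0 ∧ v.valuation K ((F i).eval t) < 1)), Real.log (Ideal.absNorm v.asIdeal : ℝ)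

/-- the degree of `K_𝒳(𝒟)` (with `1/0 = 0`) -/
noncomputable def degree {m : ℕ} (F : Fin m → K[X]) (e : Fin m → ℕ) (r : ℕ) : ℝ :=
  -1 - 1 / (r : ℝ) + ∑ i, ((F i).natDegree : ℝ) * (1 - 1 / (e i : ℝ))

/-- the inequality of Q1 for this stacky curve and divisor, for the integral points with the property
`A`: for every `δ > 0` there are a finite set `Z` and a constant `C` with
`N^{(1)}(𝒟, t) ≥ deg K_𝒳(𝒟) h(t) - δ h(t) - C` for all integral points `t` outside `Z` and outside the
special points -/
def Vojta {m : ℕ} (F : Fin m → K[X]) (e : Fin m → ℕ) (r : ℕ) (S : Set (HeightOneSpectrum (𝓞 K)))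
    (A : K → Prop) : Prop :=
  ∀ δ : ℝ, 0 < δ → ∃ (Z : Finset K) (C : ℝ), ∀ t : K, t ∉ Z → (∀ i, (F i).eval t ≠ 0) →
    IsIntegralPoint F e r S t → A t →
      truncated F e r S t ≥ degree F e r * height t - δ * height t - C

/-- `t` is close to `∞` at the infinite places and at the primes of `T` -/
def Close (T : Set (HeightOneSpectrum (𝓞 K))) (η : ℝ) (t : K) : Prop :=
  (∀ w : InfinitePlace K, 1 ≤ η * w t) ∧ ∀ v ∈ T, 1 ≤ η * FinitePlace.mk v t

/-- the inequality of Q1 for all stacky curves over `K` with coarse space the projective line -/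
def AllLines (K : Type) [Field K] [NumberField K] : Prop :=
  ∀ (m : ℕ) (F : Fin m → K[X]) (e : Fin m → ℕ) (r : ℕ) (S : Set (HeightOneSpectrum (𝓞 K))),
    Squarefree (∏ i, F i) → S.Finite → Vojta F e r S (fun _ => True)

section Curves

variable {A : Type} [CommRing A] [Algebra ℚ[X] A]

/-- the value `t(P)` of the coordinate `t` at the point `P = φ` -/
noncomputable def coord (φ : A →+* K) : K := φ (algebraMap ℚ[X] A X)

/-- the point `P = φ` reduces to a point of `{z_0 = z_1 = ⋯ = 0}` at `v`: `|t(P)|_v ≤ 1` and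
`|z_i(P)|_v < 1` for all `i` -/
def Meets {s : ℕ} (z : Fin (s + 1) → A) (φ : A →+* K) (v : HeightOneSpectrum (𝓞 K)) : Prop :=
  v.valuation K (coord φ) ≤ 1 ∧ ∀ i, v.valuation K (φ (z i)) < 1

/-- `P = φ` is an integral point, over the `S`-integers, of the curve with stacky structure of order `e l`
along `Q_l = {z_{l 0} = z_{l 1} = ⋯ = 0}`: at every prime `v` outside `S` at which `P` reduces to a point of
`Q_l`, the intersection number, that is the number `m` with `max_i |z_{l i}(P)|_v = exp(- m)` (normalised
valuation), is divisible by `e l` (no condition if `e l = 0`) -/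
def IsIntegralOnCurve {k : ℕ} {s : Fin k → ℕ} (z : ∀ l, Fin (s l + 1) → A) (e : Fin k → ℕ)
    (S : Set (HeightOneSpectrum (𝓞 K))) (φ : A →+* K) : Prop :=
  ∀ v : HeightOneSpectrum (𝓞 K), v ∉ S → ∀ l, e l ≠ 0 → Meets (z l) φ v → ∃ m : ℕ, e l ∣ m ∧
    (∀ i, v.valuation K (φ (z l i)) ≤ WithZero.exp (-(m : ℤ))) ∧
    ∃ i, v.valuation K (φ (z l i)) = WithZero.exp (-(m : ℤ))

/-- the truncated counting function `N^{(1)}(𝒟, P)` of the divisor `𝒟`, the sum of the `Q_l` with
`e l = 0`: the sum of `log N(v)` over the primes `v` outside `S` at which `P` reduces to a point of `𝒟` -/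
noncomputable def truncatedOnCurve {k : ℕ} {s : Fin k → ℕ} (z : ∀ l, Fin (s l + 1) → A)
    (e : Fin k → ℕ) (S : Set (HeightOneSpectrum (𝓞 K))) (φ : A →+* K) : ℝ :=
  ∑ᶠ (v : HeightOneSpectrum (𝓞 K)) (_ : v ∉ S ∧ ∃ l, e l = 0 ∧ Meets (z l) φ v),
    Real.log (Ideal.absNorm v.asIdeal : ℝ)

/-- `1 - ∑ dim (A / I_l) / (e_l N)` (with `1/0 = 0`), for `I_l = (z_{l 0}, z_{l 1}, …)` and `N` the rank of
`A` over `ℚ[t]`: the degree of `K_𝒳(𝒟)` divided by `N`, if `t` is unramified outside of the fibres which are
covered by the `Q_l` -/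
noncomputable def degreeOnCurve [Algebra ℚ A] {k : ℕ} {s : Fin k → ℕ} (z : ∀ l, Fin (s l + 1) → A)
    (e : Fin k → ℕ) : ℝ :=
  1 - ∑ l, (Module.finrank ℚ (A ⧸ Ideal.span (Set.range (z l))) : ℝ) /
    (e l * Module.finrank ℚ[X] A)

end Curves

/-- the inequality of Q1 for the stacky curves of any genus. Let `A` be a Dedekind domain, finite over
`ℚ[t]` and containing it (the functions on a smooth curve which is finite over the `t`-line), `a_0, a_1, a_2`
different rational numbers, `Q_1, …, Q_k` closed subschemes of the curve, given by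
`z_{l 0} = t - a_{j(l)}, z_{l 1}, …`, which contain all points over the `a_j`, with any orders `e_l`, and `S` a
finite set of primes. For every `δ > 0` there are a finite set `Z` and a constant `C` with
`N^{(1)}(𝒟, P) ≥ (deg K_𝒳(𝒟) / N) h(t(P)) - δ h(t(P)) - C` for all integral points `P` over `K` with `t(P)`
outside `Z` -/
def AllCurves (K : Type) [Field K] [NumberField K] : Prop :=
  ∀ (A : Type) [CommRing A] [IsDedekindDomain A] [Algebra ℚ A] [Algebra ℚ[X] A]
    [IsScalarTower ℚ ℚ[X] A] [Module.Finite ℚ[X] A] [FaithfulSMul ℚ[X] A]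
    (a : Fin 3 → ℚ) (k : ℕ) (j : Fin k → Fin 3) (s : Fin k → ℕ) (z : ∀ l, Fin (s l + 1) → A)
    (e : Fin k → ℕ) (S : Set (HeightOneSpectrum (𝓞 K))),
    Function.Injective a →
    (∀ l, z l 0 = algebraMap ℚ[X] A X - algebraMap ℚ[X] A (C (a (j l)))) →
    (∀ i, ∏ l with j l = i, Ideal.span (Set.range (z l)) ≤
      (Ideal.span {algebraMap ℚ[X] A X - algebraMap ℚ[X] A (C (a i))}).radical) →
    S.Finite →
    ∀ δ : ℝ, 0 < δ → ∃ (Z : Finset K) (C : ℝ), ∀ φ : A →+* K, coord φ ∉ Z →
      IsIntegralOnCurve z e S φ →
        truncatedOnCurve z e S φ ≥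
          degreeOnCurve z e * height (coord φ) - δ * height (coord φ) - C

open Pool.Agent.N757.RD Pool.Agent.N757.TL Pool.Agent.N757.SL Pool.Agent.N757.SG

theorem abc_iff : Abc K ↔ ABC K := by
  have hd := dg_pos (K := K)
  have hmul : ∀ x : Fin 3 → K, dg K * height3 x = H3 x := fun x => by
    rw [show height3 x = H3 x / dg K from rfl, mul_div_cancel₀ _ dg_pos.ne']
  have rmul : ∀ x : Fin 3 → K, x 0 + x 1 + x 2 = 0 → x 0 * x 1 * x 2 ≠ 0 →
      dg K * rad3 x = R (yy x) := fun x h1 h2 => by
    have e : rad3 x = R (yy x) / dg K := by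
      unfold R
      rw [I_yy h1 h2]
      rfl
    rw [e, mul_div_cancel₀ _ dg_pos.ne']
  constructor
  · intro h ε hε
    obtain ⟨C, hC⟩ := h ε hε
    refine ⟨dg K * C, fun y hy => ?_⟩
    have h2 : (1 : K) - y ≠ 0 := sub_ne_zero.2 hy.2.symm
    have p1 : (![y, 1 - y, -1] : Fin 3 → K) 0 + (![y, 1 - y, -1] : Fin 3 → K) 1 +
      (![y, 1 - y, -1] : Fin 3 → K) 2 = 0 := by simp
    have p2 : (![y, 1 - y, -1] : Fin 3 → K) 0 * (![y, 1 - y, -1] : Fin 3 → K) 1 *
      (![y, 1 - y, -1] : Fin 3 → K) 2 ≠ 0 := by simp [hy.1, h2]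
    have hyy : yy (![y, 1 - y, -1] : Fin 3 → K) = y := by simp [yy]
    have h3 := hC _ p1 p2
    have h4 := (H3_bounds p1 p2).1
    have h5 := rmul _ p1 p2
    rw [← hmul, hyy] at h4
    rw [hyy] at h5
    have h6 := mul_lt_mul_of_pos_left h3 hd
    rw [← h5]
    nlinarith
  · intro h ε hε
    obtain ⟨C, hC⟩ := h ε hε
    refine ⟨C / dg K + Real.log 2 + 1, fun x p1 p2 => ?_⟩
    have h2 := hC (yy x) ⟨yy_ne_zero p2, yy_ne_one p1 p2⟩
    have h3 := (H3_bounds p1 p2).2
    rw [← hmul] at h3
    rw [← rmul x p1 p2] at h2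
    have h4 : dg K * height3 x ≤ dg K * ((1 + ε) * rad3 x + (C / dg K + Real.log 2)) := by
      have e : dg K * (C / dg K) = C := by field_simp
      nlinarith
    have h5 := le_of_mul_le_mul_left h4 hd
    linarith

theorem height_eq (t : K) : height t = D t := by
  unfold height
  rw [D_eq]
  have h1 : ∀ w : InfinitePlace K, Real.log (max 1 (w t)) = Real.posLog (w t) := fun w =>
    log_max_one _ (apply_nonneg _ _)
  have h2 : ∀ v : HeightOneSpectrum (𝓞 K), Real.log (max 1 (FinitePlace.mk v t)) =
      Real.posLog (FinitePlace.mk v t) := fun v => log_max_one _ (apply_nonneg _ _)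
  simp only [h1, h2]

theorem truncated_eq {m : ℕ} (F : Fin m → K[X]) (e : Fin m → ℕ) (r : ℕ)
    (S : Set (HeightOneSpectrum (𝓞 K))) (t : K) : truncated F e r S t = W (JG F e r S t) := rfl

theorem JG_line (p q : ℕ) (S : Set (HeightOneSpectrum (𝓞 K))) (t : K) :
    JG ![X, 1 - X] ![p, q] 0 S t = J p q S t := by
  ext v
  unfold JG J
  simp only [Set.mem_ofPred_eq, true_and, Fin.exists_fin_two, Matrix.cons_val_zero,
    Matrix.cons_val_one, eval_X, eval_sub, eval_one]

omit [NumberField K] in
theorem natDegree_one_sub : (1 - X : K[X]).natDegree = 1 := by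
  have h : (1 - X : K[X]) = -(X - C 1) := by simp
  rw [h, natDegree_neg, natDegree_X_sub_C]

omit [NumberField K] in
theorem degree_line (p q : ℕ) :
    degree (K := K) ![X, 1 - X] ![p, q] 0 = 1 - 1 / (p : ℝ) - 1 / (q : ℝ) := by
  unfold degree
  simp only [Fin.sum_univ_two, Matrix.cons_val_zero, Matrix.cons_val_one, natDegree_X,
    natDegree_one_sub]
  simp
  ring

theorem squarefree_line : Squarefree (∏ i, (![X, 1 - X] : Fin 2 → K[X]) i) := by
  simp only [Fin.prod_univ_two, Matrix.cons_val_zero, Matrix.cons_val_one]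
  have h : IsCoprime (X : K[X]) (1 - X) := ⟨1, 1, by ring⟩
  rw [squarefree_mul_iff]
  refine ⟨h.isRelPrime, irreducible_X.squarefree, ?_⟩
  have h2 : (1 - X : K[X]) = -(X - C 1) := by simp
  have h3 : Squarefree (X - C (1 : K)) := (irreducible_X_sub_C (1 : K)).squarefree
  intro x hx
  refine h3 x ?_
  rw [h2] at hx
  exact (dvd_neg.1 hx)

/-- the places -/
noncomputable def places {T : Set (HeightOneSpectrum (𝓞 K))} (hT : T.Finite) : Finset (Pl K) :=
  (Finset.univ : Finset (InfinitePlace K)).disjSum hT.toFinset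

theorem close_iff {T : Set (HeightOneSpectrum (𝓞 K))} (hT : T.Finite) (δ : ℝ) (x : K) :
    Close T δ x ↔ ∀ v ∈ places hT, 1 ≤ δ * av v x := by
  constructor
  · rintro ⟨h1, h2⟩ v hv
    rcases v with w | p
    · exact h1 w
    · exact h2 p (hT.mem_toFinset.1 (Finset.inr_mem_disjSum.1 hv))
  · intro h
    exact ⟨fun w => h (.inl w) (Finset.inl_mem_disjSum.2 (Finset.mem_univ w)),
      fun v hv => h (.inr v) (Finset.inr_mem_disjSum.2 (hT.mem_toFinset.2 hv))⟩

theorem of_vojta {p q : ℕ} {S T : Set (HeightOneSpectrum (𝓞 K))} (hT : T.Finite) {η : ℝ}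
    (h : Vojta ![X, 1 - X] ![p, q] 0 S (Close T η)) : Ineq p q S (places hT) η := by
  classical
  intro ε hε
  obtain ⟨Z, C, hC⟩ := h ε hε
  refine ⟨|C| + ∑ z ∈ Z, |1 - 1 / (p : ℝ) - 1 / (q : ℝ)| * D z, ?_⟩
  rintro t ⟨ht0, ht1, hint, hclose⟩
  have hsum : 0 ≤ ∑ z ∈ Z, |1 - 1 / (p : ℝ) - 1 / (q : ℝ)| * D z :=
    Finset.sum_nonneg fun z _ => mul_nonneg (abs_nonneg _) (D_nonneg z)
  by_cases htZ : t ∈ Z
  · have h1 : |1 - 1 / (p : ℝ) - 1 / (q : ℝ)| * D t ≤
        ∑ z ∈ Z, |1 - 1 / (p : ℝ) - 1 / (q : ℝ)| * D z :=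
      Finset.single_le_sum (f := fun z => |1 - 1 / (p : ℝ) - 1 / (q : ℝ)| * D z)
        (fun z _ => mul_nonneg (abs_nonneg _) (D_nonneg z)) htZ
    have h2 : (1 - 1 / (p : ℝ) - 1 / (q : ℝ) - ε) * D t ≤
        |1 - 1 / (p : ℝ) - 1 / (q : ℝ)| * D t :=
      mul_le_mul_of_nonneg_right (by linarith [le_abs_self (1 - 1 / (p : ℝ) - 1 / (q : ℝ))])
        (D_nonneg t)
    have h3 := W_nonneg (J p q S t)
    have h4 := abs_nonneg C
    linarith
  · have hne : ∀ i, ((![X, 1 - X] : Fin 2 → K[X]) i).eval t ≠ 0 := by
      rw [Fin.forall_fin_two]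
      simp only [Matrix.cons_val_zero, Matrix.cons_val_one, eval_X, eval_sub, eval_one]
      exact ⟨ht0, sub_ne_zero.2 ht1.symm⟩
    have hI : IsIntegralPoint ![X, 1 - X] ![p, q] 0 S t := by
      intro v hv
      refine ⟨?_, fun h => absurd rfl h⟩
      rw [Fin.forall_fin_two]
      simp only [Matrix.cons_val_zero, Matrix.cons_val_one, eval_X, eval_sub, eval_one]
      exact ⟨(hint v hv).1, (hint v hv).2⟩
    have h1 := hC t htZ hne hI ((close_iff hT η t).2 hclose)
    rw [height_eq, truncated_eq, JG_line, degree_line] at h1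
    have h2 := le_abs_self C
    have e : (1 - 1 / (p : ℝ) - 1 / (q : ℝ) - ε) * D t =
      (1 - 1 / (p : ℝ) - 1 / (q : ℝ)) * D t - ε * D t := by ring
    rw [e]
    linarith

theorem to_vojta (h : ABC K) {m : ℕ} (F : Fin m → K[X]) (hF : Squarefree (∏ i, F i))
    (e : Fin m → ℕ) (r : ℕ) {S : Set (HeightOneSpectrum (𝓞 K))} (hS : S.Finite) :
    Vojta F e r S (fun _ => True) := by
  intro δ hδ
  obtain ⟨C, hC⟩ := abc_gen h F hF e r hS hδ
  refine ⟨∅, C, fun t _ ht hint _ => ?_⟩
  have h1 := hC t ht hint
  rw [height_eq, truncated_eq]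
  unfold degree
  rw [sub_mul] at h1
  linarith

theorem vojta_mono {m : ℕ} {F : Fin m → K[X]} {e : Fin m → ℕ} {r : ℕ}
    {S : Set (HeightOneSpectrum (𝓞 K))} {A : K → Prop}
    (h : Vojta F e r S (fun _ => True)) : Vojta F e r S A := by
  intro δ hδ
  obtain ⟨Z, C, hC⟩ := h δ hδ
  exact ⟨Z, C, fun t h1 h2 h3 _ => hC t h1 h2 h3 trivial⟩

theorem to_curves (h : ABC K) : AllCurves K := by
  intro A _ _ _ _ _ _ _ a k j s z e S ha hz hcov hS δ hδ
  obtain ⟨Z, C, hC⟩ := abc_curve h A a ha k j s z hz hcov e hS hδ
  refine ⟨Z, C, fun φ hφ hint => ?_⟩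
  have h1 := hC φ hφ hint
  rw [sub_mul] at h1
  rw [height_eq]
  have h2 : truncatedOnCurve z e S φ =
    W {v | v ∉ S ∧ ∃ l, e l = 0 ∧ Pool.Agent.W223.AC.NearP (z l) φ v} := rfl
  have h3 : coord φ = φ (Pool.Agent.W223.AC.tt A) := rfl
  rw [h2, h3]
  unfold degreeOnCurve
  linarith

/-- **One stacky line is enough.** Let `K` be a number field, `(P, Q)` a pair of the set `Signature`,
`S` and `T` finite sets of primes and `η > 0`. Equivalent are:

1. the abc conjecture over `K`;
2. the inequality of Q1 for the line with stacky points of orders `P` at `0` and `Q` at `1` and the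
   divisor `∞`, over the `S`-integers;
3. the same for the integral points `t` with `|t|_v ≥ 1 / η` at all infinite places and at all `v ∈ T`;
4. the inequality of Q1 for the line with arbitrary stacky structure (along any closed points `F_i = 0` and
  at `∞`, with any orders) and with any divisor, over all rings of `S'`-integers;
5. item 4 and the inequality of Q1 for all stacky curves (of any genus, with a given Belyi map) and with any
  divisor, over all rings of `S'`-integers.

`Signature` contains `(n, 0)` for `n ≥ 2`, and for `m ≥ 1` it contains `(k m, 2 m)` for `k ≥ 3`, `(3 m, 3 m)`,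
`(4 m, 4 m)`, `((k + 1) m, 2 k m)` for `k ≥ 2` and `((k + 2) m, 2 k m)` for `k ≥ 3`. -/
theorem result (K : Type) [Field K] [NumberField K] (P Q : ℕ) (h : Signature P Q)
    (S T : Set (HeightOneSpectrum (𝓞 K))) (hS : S.Finite) (hT : T.Finite) (η : ℝ) (hη : 0 < η) :
    List.TFAE [
      Abc K,
      Vojta ![X, 1 - X] ![P, Q] 0 S (fun _ => True),
      Vojta ![X, 1 - X] ![P, Q] 0 S (Close T η),
      AllLines K,
      AllLines K ∧ AllCurves K] ∧
    (∀ n : ℕ, 2 ≤ n → Signature n 0) ∧
    ∀ m : ℕ, 1 ≤ m → (∀ k : ℕ, 3 ≤ k → Signature (k * m) (2 * m)) ∧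
      Signature (3 * m) (3 * m) ∧ Signature (4 * m) (4 * m) ∧
      (∀ k : ℕ, 2 ≤ k → Signature ((k + 1) * m) (2 * k * m)) ∧
      ∀ k : ℕ, 3 ≤ k → Signature ((k + 2) * m) (2 * k * m) := by
  refine ⟨?_, fun n hn => ?_, fun m hm => ?_⟩
  · tfae_have 1 → 5 := fun h1 => ⟨fun m F e r S' hF hS' => to_vojta (abc_iff.1 h1) F hF e r hS',
      to_curves (abc_iff.1 h1)⟩
    tfae_have 5 → 4 := fun h1 => h1.1
    tfae_have 4 → 2 := fun h1 => h1 2 ![X, 1 - X] ![P, Q] 0 S squarefree_line hS
    tfae_have 2 → 3 := vojta_mono
    tfae_have 3 → 1 := fun h1 => abc_iff.2 ((main h hS (places hT) hη).2 (of_vojta hT h1))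
    tfae_finish
  · have h1 := Signature.mean (p := 0) (q := 0) 1 (n - 1) le_rfl (by omega) (by ring)
      Signature.cusps
    rwa [zero_mul, show 1 + (n - 1) = n by omega] at h1
  · refine ⟨fun k hk => (Signature.square k hk).multiple m hm, Signature.cubes.multiple m hm,
      Signature.fourth.multiple m hm, fun k hk => ?_, fun k hk => ?_⟩
    · have h1 := Signature.mean (p := 2 * k) (q := 2) 1 k le_rfl (by omega) (by ring)
        (Signature.square (2 * k) (by omega))
      rw [mul_one, add_comm] at h1
      exact h1.multiple m hm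
    · have h1 := Signature.mean (p := k) (q := 2) 2 k (by omega) (by omega) (by ring)
        (Signature.square k hk)
      rw [add_comm, mul_comm k 2] at h1
      exact h1.multiple m hm

end Pool.Agent.Results.MP_a41896_nt.OneStackyLine
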