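import Pool.Agent.N120.TH.AllR
import Pool.Agent.N120.TH.Fin6
import Pool.Agent.N120.TH.HMS
import Pool.Agent.N120.TH.UNRF

/-!
# Integral points of stacks over tori

`V: f(x, y) = 0` is a finite cover of the torus `G_m ^ n` over a number field `K`, ramified or not, `V'` is a
closed subset. We count the points `x` of `Γ ^ n`, `Γ` a finitely generated group, above which `V` has
a point outside `V'` over the maximal extension `ℚ_S` of `ℚ` which is unramified outside a finite set `S` of
primes. An integral point over `O_{F, S}` of a stack with the coarse space `G_m ^ n` and a finite étale cover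
by (the normalisation of) `V` lifts to such a point of `V`.
-/

set_option autoImplicit false

namespace Pool.Agent.Results.MP_a41896_nt.StacksOverTori

open Polynomial

/-- `w` lies in the maximal extension `ℚ_S` of `ℚ` which is unramified outside the finite set `S` of prime
numbers (and infinity): it lies in a finite Galois extension `E` of `ℚ` the discriminant of which is
divisible by primes in `S` only -/
def InUnramified {A : Type} [Field A] (S : Finset ℕ) (w : A) : Prop :=
  ∃ (E : Type) (_ : Field E) (_ : NumberField E) (ι : E →+* A), IsGalois ℚ E ∧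
    (∀ p : ℕ, p.Prime → (p : ℤ) ∣ NumberField.discr E → p ∈ S) ∧ w ∈ ι.range

/-- the polynomial `f` over an extension `F` of `K` -/
noncomputable def extend {K : Type} [Field K] (F : Type) [Field F] [Algebra K F] {n : ℕ}
    (f : Polynomial (MvPolynomial (Fin n) K)) : Polynomial (MvPolynomial (Fin n) F) :=
  f.map (MvPolynomial.map (algebraMap K F))

/-- the polynomial `f(x_1 ^ m, …, x_n ^ m, h(x))` over the algebraic closure -/
noncomputable def pullback {K : Type} [Field K] {n : ℕ} (m : ℕ)
    (f : Polynomial (MvPolynomial (Fin n) K)) (h : MvPolynomial (Fin n) (AlgebraicClosure K)) :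
    MvPolynomial (Fin n) (AlgebraicClosure K) :=
  ((extend (AlgebraicClosure K) f).map
    (MvPolynomial.expand m : MvPolynomial (Fin n) (AlgebraicClosure K) →ₐ[AlgebraicClosure K]
      MvPolynomial (Fin n) (AlgebraicClosure K)).toRingHom).eval h

/-- every map `x ↦ (x_1 ^ m, …, x_n ^ m, h(x))` from the torus to `V: f = 0` has its image in
`V': G_1 = ⋯ = G_s = 0` -/
def SectionsIn {K : Type} [Field K] {n s : ℕ} (f : Polynomial (MvPolynomial (Fin n) K))
    (G : Fin s → Polynomial (MvPolynomial (Fin n) K)) : Prop :=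
  ∀ m : ℕ, 1 ≤ m → ∀ h : MvPolynomial (Fin n) (AlgebraicClosure K),
    pullback m f h = 0 → ∀ j, pullback m (G j) h = 0

/-- the value `f(x, w)` at `x_i ∈ Fˣ` and an algebraic number `w` -/
noncomputable def val {F : Type} [Field F] {n : ℕ} (f : Polynomial (MvPolynomial (Fin n) F))
    (x : Fin n → Fˣ) (w : AlgebraicClosure F) : AlgebraicClosure F :=
  Polynomial.aeval w (f.map (MvPolynomial.eval (fun i => ((x i : Fˣ) : F))))

/-- the points `(x, w)` of `V` outside `V'` with `x_i ∈ Γ`, `x_i / y_i` of (logarithmic, relative to `F`)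
height at most `T`, and `w ∈ ℚ_S` -/
def points {F : Type} [Field F] [NumberField F] {n s : ℕ}
    (f : Polynomial (MvPolynomial (Fin n) F)) (G : Fin s → Polynomial (MvPolynomial (Fin n) F))
    (S : Finset ℕ) (Γ : Subgroup Fˣ) (y : Fin n → Fˣ) (T : ℝ) :
    Set ((Fin n → Fˣ) × AlgebraicClosure F) :=
  {z | (∀ i, z.1 i ∈ Γ ∧ Height.logHeight₁ ((z.1 i / y i : Fˣ) : F) ≤ T) ∧
    val f z.1 z.2 = 0 ∧ (∃ j, val (G j) z.1 z.2 ≠ 0) ∧ InUnramified S z.2}

/-- a power saving in the number of these points, over all number fields `F`, for all finite sets `S` of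
primes and all finitely generated groups `Γ` of rank `r ≥ 2`, with any exponent
`θ < (r - 1) / (5 r + 3)`, uniformly in the centre -/
def PowerSaving {K : Type} [Field K] [NumberField K] {n s : ℕ}
    (f : Polynomial (MvPolynomial (Fin n) K))
    (G : Fin s → Polynomial (MvPolynomial (Fin n) K)) : Prop :=
  ∀ (F : Type) [Field F] [NumberField F] [Algebra K F] (S : Finset ℕ) (Γ : Subgroup Fˣ), Γ.FG →
    2 ≤ Module.finrank ℤ (Additive Γ) → ∀ θ : ℝ, 0 < θ →
    θ < ((Module.finrank ℤ (Additive Γ) : ℝ) - 1) / (5 * Module.finrank ℤ (Additive Γ) + 3) →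
    ∃ C : ℝ, ∀ y : Fin n → Fˣ, (∀ i, y i ∈ Γ) →
      ∀ T : ℝ, 1 ≤ T → (points (extend F f) (fun j => extend F (G j)) S Γ y T).Finite ∧
        ((points (extend F f) (fun j => extend F (G j)) S Γ y T).ncard : ℝ) ≤
          C * T ^ ((n : ℝ) * Module.finrank ℤ (Additive Γ) - θ)

/-- these points have lower density zero over `Γ ^ n` -/
def NotPositive {K : Type} [Field K] [NumberField K] {n s : ℕ}
    (f : Polynomial (MvPolynomial (Fin n) K))
    (G : Fin s → Polynomial (MvPolynomial (Fin n) K)) : Prop :=
  ∀ (F : Type) [Field F] [NumberField F] [Algebra K F] (S : Finset ℕ) (Γ : Subgroup Fˣ), Γ.FG →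
    2 ≤ Module.finrank ℤ (Additive Γ) → ∀ c : ℝ, 0 < c → ∀ T0 : ℝ, ∃ T : ℝ, T0 ≤ T ∧
      (points (extend F f) (fun j => extend F (G j)) S Γ 1 T).Finite ∧
        ((points (extend F f) (fun j => extend F (G j)) S Γ 1 T).ncard : ℝ) <
          c * T ^ ((n : ℝ) * Module.finrank ℤ (Additive Γ))

theorem result (K : Type) [Field K] [NumberField K] (n s : ℕ) (hn : 1 ≤ n)
    (f : Polynomial (MvPolynomial (Fin n) K)) (hf : f.Monic)
    (G : Fin s → Polynomial (MvPolynomial (Fin n) K)) :
    [SectionsIn f G, PowerSaving f G, NotPositive f G].TFAE :=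
  N120.TH.Fin6_.tfaeU N120.TH.oneR N120.TH.alg N120.TH.t_FCT N120.TH.conv N120.TH.t_HMS
    N120.TH.t_UNRF hn f hf G

end Pool.Agent.Results.MP_a41896_nt.StacksOverTori
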